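import Pool.Agent.Helper54.FP.Inst
import Pool.Agent.Helper18.PW.WeakApprox
import Pool.Agent.Helper51.PW.ThetaAux

/-!
# FP-25: the decomposition group at infinity is the local Galois group
-/

set_option autoImplicit false
open scoped Pointwise
open Pool.Agent.Helper54.PW

namespace Pool.Agent.Helper54.FP

namespace LocalGlobalAux

open Polynomial

/-- nonunits of the comap -/
theorem lg_nonunits_comap {L Ω : Type} [Field L] [Field Ω] (j : L →+* Ω) (B : ValuationSubring Ω)
    (x : L) : x ∈ (B.comap j).nonunits ↔ j x ∈ B.nonunits := by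
  rw [ValuationSubring.mem_nonunits_iff_or, ValuationSubring.mem_nonunits_iff_or,
    ValuationSubring.mem_comap, map_inv₀, map_eq_zero]

theorem lg_unit_not {Ω : Type} [Field Ω] (B : ValuationSubring Ω) {x y : Ω} (hxy : x * y = 1)
    (hx : x ∈ B.nonunits) (hy : y ∈ B) : False := by
  have h1 := mul_mem_nonunits' hy hx
  rw [mul_comm, hxy, ValuationSubring.mem_nonunits_iff, map_one] at h1
  exact lt_irrefl _ h1

section
variable {k Ω : Type} [Field k] [Field Ω] (i : LaurentSeries k →+* Ω) (B : ValuationSubring Ω)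
  (hB : ∀ f : LaurentSeries k, i f ∈ B ↔
      ∃ g : PowerSeries k, algebraMap (PowerSeries k) (LaurentSeries k) g = f)

include hB

theorem lg_mem (g : PowerSeries k) : i (algebraMap (PowerSeries k) (LaurentSeries k) g) ∈ B :=
  (hB _).2 ⟨g, rfl⟩

theorem lg_single_notMem : i (HahnSeries.single (-1 : ℤ) (1 : k)) ∉ B := by
  rw [hB]
  rintro ⟨g, hg⟩
  have h1 := congrArg (fun f : LaurentSeries k => f.coeff (-1)) hg
  simp only [HahnSeries.coeff_single_same] at h1
  have h2 : (algebraMap (PowerSeries k) (LaurentSeries k) g).coeff (-1) = 0 := by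
    rw [LaurentSeries.coe_algebraMap, HahnSeries.ofPowerSeries_apply]
    apply HahnSeries.embDomain_of_notMem_range
    simp
  rw [h2] at h1
  exact zero_ne_one h1

omit hB in
theorem lg_X : algebraMap (PowerSeries k) (LaurentSeries k) PowerSeries.X =
    HahnSeries.single (1 : ℤ) (1 : k) := by
  rw [LaurentSeries.coe_algebraMap, HahnSeries.ofPowerSeries_X]

omit hB in
theorem lg_single_inv : (HahnSeries.single (1 : ℤ) (1 : k) : LaurentSeries k) *
    HahnSeries.single (-1 : ℤ) (1 : k) = 1 := by
  rw [HahnSeries.single_mul_single]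
  simp

theorem lg_X_nonunit : i (algebraMap (PowerSeries k) (LaurentSeries k) PowerSeries.X) ∈
    B.nonunits := by
  rw [ValuationSubring.mem_nonunits_iff_or]
  right
  have h1 : (i (algebraMap (PowerSeries k) (LaurentSeries k) PowerSeries.X))⁻¹ =
      i (HahnSeries.single (-1 : ℤ) (1 : k)) := by
    apply inv_eq_of_mul_eq_one_right
    rw [lg_X, ← map_mul, lg_single_inv, map_one]
  rw [h1]
  exact lg_single_notMem i B hB

theorem lg_nonunit_iff (g : PowerSeries k) :
    i (algebraMap (PowerSeries k) (LaurentSeries k) g) ∈ B.nonunits ↔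
      PowerSeries.constantCoeff g = 0 := by
  constructor
  · intro h
    by_contra h0
    have hu : IsUnit g := PowerSeries.isUnit_iff_constantCoeff.2 (isUnit_iff_ne_zero.2 h0)
    obtain ⟨g', hg'⟩ := isUnit_iff_exists_inv.1 hu
    refine lg_unit_not B (x := i (algebraMap (PowerSeries k) (LaurentSeries k) g))
      (y := i (algebraMap (PowerSeries k) (LaurentSeries k) g')) ?_ h (lg_mem i B hB g')
    rw [← map_mul, ← map_mul, hg', map_one, map_one]
  · intro h
    obtain ⟨g', rfl⟩ := PowerSeries.X_dvd_iff.2 h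
    rw [map_mul, map_mul, mul_comm]
    exact mul_mem_nonunits' (lg_mem i B hB g') (lg_X_nonunit i B hB)

end

theorem lg_rx_poly {k : Type} [Field k] (q : Polynomial k) :
    rx k (algebraMap (Polynomial k) (RatFunc k) q) = px k q := by
  unfold rx
  rw [RatFunc.liftRingHom_algebraMap]

theorem lg_rx_X {k : Type} [Field k] : rx k RatFunc.X = HahnSeries.single (-1 : ℤ) (1 : k) := by
  rw [← RatFunc.algebraMap_X, lg_rx_poly, px, Polynomial.coe_eval₂RingHom, Polynomial.eval₂_X]

theorem lg_rx_C {k : Type} [Field k] (c : k) :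
    rx k (algebraMap (Polynomial k) (RatFunc k) (Polynomial.C c)) = HahnSeries.C c := by
  rw [lg_rx_poly, px, Polynomial.coe_eval₂RingHom, Polynomial.eval₂_C]

theorem lg_rx_Xinv {k : Type} [Field k] :
    rx k RatFunc.X⁻¹ = HahnSeries.single (1 : ℤ) (1 : k) := by
  rw [map_inv₀, lg_rx_X]
  apply inv_eq_of_mul_eq_one_left
  exact lg_single_inv

theorem lg_poly {k : Type} [Field k] (q : Polynomial k) :
    ∃ r : RatFunc k, rx k r = algebraMap (PowerSeries k) (LaurentSeries k) (q : PowerSeries k) := by
  induction q using Polynomial.induction_on' with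
  | add p q hp hq =>
    obtain ⟨r, hr⟩ := hp
    obtain ⟨r', hr'⟩ := hq
    exact ⟨r + r', by rw [map_add, hr, hr', Polynomial.coe_add, map_add]⟩
  | monomial n a =>
    refine ⟨algebraMap (Polynomial k) (RatFunc k) (Polynomial.C a) * RatFunc.X⁻¹ ^ n, ?_⟩
    rw [map_mul, map_pow, lg_rx_C, lg_rx_Xinv, ← Polynomial.C_mul_X_pow_eq_monomial,
      Polynomial.coe_mul, Polynomial.coe_pow, Polynomial.coe_X, Polynomial.coe_C, map_mul, map_pow,
      lg_X]
    congr 1
    rw [LaurentSeries.coe_algebraMap, HahnSeries.ofPowerSeries_C]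

/-- truncation: Laurent series are approximated by rational functions -/
theorem lg_approx {k : Type} [Field k] (f : LaurentSeries k) (N : ℕ) :
    ∃ (r : RatFunc k) (g : PowerSeries k),
      (HahnSeries.single (-1 : ℤ) (1 : k) : LaurentSeries k) ^ N * (f - rx k r) =
        algebraMap (PowerSeries k) (LaurentSeries k) g := by
  set m : ℤ := f.order with hm
  set M : ℕ := N + m.natAbs with hM
  set g := f.powerSeriesPart with hg
  have hf : (HahnSeries.single m (1 : k) : LaurentSeries k) *
      algebraMap (PowerSeries k) (LaurentSeries k) g = f := by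
    rw [LaurentSeries.coe_algebraMap]
    exact LaurentSeries.single_order_mul_powerSeriesPart f
  obtain ⟨r, hr⟩ := lg_poly (g.trunc M)
  have hg2 := g.eq_X_pow_mul_shift_add_trunc M
  set g' : PowerSeries k := PowerSeries.mk fun i => PowerSeries.coeff (i + M) g
  have hs : ∀ a b : ℤ, (HahnSeries.single a (1 : k) : LaurentSeries k) *
      HahnSeries.single b (1 : k) = HahnSeries.single (a + b) (1 : k) := by
    intro a b
    rw [HahnSeries.single_mul_single, one_mul]
  have hsp : ∀ (n : ℕ) (a : ℤ), (HahnSeries.single a (1 : k) : LaurentSeries k) ^ n =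
      HahnSeries.single ((n : ℤ) * a) (1 : k) := by
    intro n a
    rw [HahnSeries.single_pow, one_pow, nsmul_eq_mul]
  have hm0 : ∃ r0 : RatFunc k, rx k r0 = HahnSeries.single m (1 : k) := by
    refine ⟨RatFunc.X⁻¹ ^ (m.toNat) * RatFunc.X ^ ((-m).toNat), ?_⟩
    rw [map_mul, map_pow, map_pow, lg_rx_Xinv, lg_rx_X, hsp, hsp, hs]
    have h1 : ((m.toNat : ℕ) : ℤ) * 1 + (((-m).toNat : ℕ) : ℤ) * -1 = m := by omega
    rw [h1]
  obtain ⟨r0, hr0⟩ := hm0
  refine ⟨r0 * r, PowerSeries.X ^ (m + M - N).toNat * g', ?_⟩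
  rw [map_mul, hr0, hr]
  have h1 : f = (HahnSeries.single m (1 : k) : LaurentSeries k) *
      (HahnSeries.single (M : ℤ) (1 : k) * algebraMap (PowerSeries k) (LaurentSeries k) g' +
        algebraMap (PowerSeries k) (LaurentSeries k) (g.trunc M : PowerSeries k)) := by
    conv_lhs => rw [← hf, hg2]
    rw [map_add, map_mul, map_pow, lg_X, hsp, mul_one]
  conv_lhs => rw [h1]
  rw [map_mul, map_pow, lg_X, hsp, hsp]
  have h2 : (HahnSeries.single ((N : ℤ) * -1) (1 : k) : LaurentSeries k) *
      ((HahnSeries.single m (1 : k) : LaurentSeries k) *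
      (HahnSeries.single (M : ℤ) (1 : k) * algebraMap (PowerSeries k) (LaurentSeries k) g' +
        algebraMap (PowerSeries k) (LaurentSeries k) (g.trunc M : PowerSeries k)) -
        HahnSeries.single m (1 : k) *
          algebraMap (PowerSeries k) (LaurentSeries k) (g.trunc M : PowerSeries k)) =
      ((HahnSeries.single ((N : ℤ) * -1) (1 : k) * HahnSeries.single m (1 : k)) *
        HahnSeries.single (M : ℤ) (1 : k)) * algebraMap (PowerSeries k) (LaurentSeries k) g' := by
    ring
  have h3 : (N : ℤ) * -1 + m + (M : ℤ) = (((m + M - N).toNat : ℕ) : ℤ) * 1 := by omega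
  rw [h2, hs, hs, h3]

end LocalGlobalAux

open LocalGlobalAux Polynomial

theorem local_global {k L Ω : Type} [Field k] [IsAlgClosed k] [Field L] [Algebra (RatFunc k) L]
    [FiniteDimensional (RatFunc k) L] [IsGalois (RatFunc k) L] [Field Ω]
    (i : LaurentSeries k →+* Ω) (j : L →+* Ω)
    (hj : ∀ r : RatFunc k, j (algebraMap (RatFunc k) L r) = i (rx k r)) (B : ValuationSubring Ω)
    (hB : ∀ f : LaurentSeries k, i f ∈ B ↔
      ∃ g : PowerSeries k, algebraMap (PowerSeries k) (LaurentSeries k) g = f)
    (σ : L ≃ₐ[RatFunc k] L) :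
    σ • B.comap j = B.comap j ↔ ∀ y : L, j y ∈ Set.range i → σ y = y := by
  classical
  let _ : Algebra k L := ((algebraMap (RatFunc k) L).comp (algebraMap k (RatFunc k))).toAlgebra
  have hst : IsScalarTower k (RatFunc k) L := IsScalarTower.of_algebraMap_eq fun _ => rfl
  have hF : FF k L := ff_of_algebraic k L
  set A := B.comap j with hA
  have hAn : ∀ x : L, x ∈ A.nonunits ↔ j x ∈ B.nonunits := lg_nonunits_comap j B
  have hAm : ∀ x : L, x ∈ A ↔ j x ∈ B := fun x => ValuationSubring.mem_comap
  have hXA : j (algebraMap (RatFunc k) L RatFunc.X) ∉ B := by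
    rw [hj, lg_rx_X]
    exact lg_single_notMem i B hB
  have hkA : ∀ c : k, algebraMap k L c ∈ A := by
    intro c
    have h1 : algebraMap k L c = algebraMap (RatFunc k) L
        (algebraMap (Polynomial k) (RatFunc k) (Polynomial.C c)) := rfl
    rw [hAm, h1, hj, lg_rx_C, hB]
    exact ⟨PowerSeries.C c, by rw [LaurentSeries.coe_algebraMap, HahnSeries.ofPowerSeries_C]⟩
  have hAtop : A ≠ ⊤ := by
    intro h
    apply hXA
    rw [← hAm, h]
    exact ValuationSubring.mem_top _
  have hAP : IsPlace k A := ⟨hAtop, hkA⟩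
  constructor
  · rintro hσ y ⟨f, hf⟩
    by_contra hne
    have hz : σ y - y ≠ 0 := sub_ne_zero.2 hne
    set x : L := algebraMap (RatFunc k) L RatFunc.X⁻¹ with hx
    have hxn : x ∈ A.nonunits := by
      rw [hAn, hx, hj, lg_rx_Xinv, ← lg_X]
      exact lg_X_nonunit i B hB
    have hx0 : x ≠ 0 := by
      rw [hx]
      rw [Ne, map_eq_zero]
      exact inv_ne_zero RatFunc.X_ne_zero
    obtain ⟨N, hN⟩ := arch hF A hkA x hxn hx0 (σ y - y)⁻¹
    have hN1 := hN N le_rfl
    obtain ⟨r, g, hrg⟩ := lg_approx f N
    set X : L := algebraMap (RatFunc k) L RatFunc.X with hXdef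
    have hy : X ^ N * (y - algebraMap (RatFunc k) L r) ∈ A := by
      rw [hAm, map_mul, map_pow, map_sub, hXdef, hj, hj, lg_rx_X, ← hf, ← map_sub, ← map_pow,
        ← map_mul, hrg]
      exact lg_mem i B hB g
    have hσy : X ^ N * (σ y - algebraMap (RatFunc k) L r) ∈ A := by
      have h1 : σ (X ^ N * (y - algebraMap (RatFunc k) L r)) ∈ A := by
        rw [← hσ, mem_smul_iff']
        have h2 : σ⁻¹ (σ (X ^ N * (y - algebraMap (RatFunc k) L r))) =
          X ^ N * (y - algebraMap (RatFunc k) L r) := σ.symm_apply_apply _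
        rw [h2]
        exact hy
      have h3 : σ X = X := by rw [hXdef]; exact σ.commutes _
      have h4 : σ (algebraMap (RatFunc k) L r) = algebraMap (RatFunc k) L r := σ.commutes _
      rw [map_mul, map_pow, map_sub, h3, h4] at h1
      exact h1
    have hd : X ^ N * (σ y - y) ∈ A := by
      have := A.sub_mem hσy hy
      have h2 : X ^ N * (σ y - algebraMap (RatFunc k) L r) -
        X ^ N * (y - algebraMap (RatFunc k) L r) = X ^ N * (σ y - y) := by ring
      rwa [h2] at this
    refine lg_unit_not A (x := x ^ N * (σ y - y)⁻¹) (y := X ^ N * (σ y - y)) ?_ hN1 hd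
    have hxX : x * X = 1 := by
      rw [hx, hXdef, ← map_mul, inv_mul_cancel₀ RatFunc.X_ne_zero, map_one]
    calc x ^ N * (σ y - y)⁻¹ * (X ^ N * (σ y - y)) = (x * X) ^ N * ((σ y - y)⁻¹ * (σ y - y)) := by
          rw [mul_pow]; ring
      _ = 1 := by rw [hxX, one_pow, inv_mul_cancel₀ hz, mul_one]
  · intro hfix
    -- the intermediate field of the elements of `L` which are Laurent series
    let S : Subfield L := i.fieldRange.comap j
    have hSr : ∀ r : RatFunc k, algebraMap (RatFunc k) L r ∈ S := by
      intro r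
      exact ⟨rx k r, (hj r).symm⟩
    let M : IntermediateField (RatFunc k) L := S.toIntermediateField hSr
    have hM : ∀ y : L, y ∈ M ↔ j y ∈ Set.range i := fun y => Iff.rfl
    let _ : Algebra k M := ((algebraMap (RatFunc k) M).comp (algebraMap k (RatFunc k))).toAlgebra
    have hst2 : IsScalarTower k M L := IsScalarTower.of_algebraMap_eq fun _ => rfl
    let Γ := L ≃ₐ[M] L
    have hσM : σ ∈ M.fixingSubgroup := by
      rw [IntermediateField.mem_fixingSubgroup_iff]
      intro y hy
      exact hfix y ((hM y).1 hy)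
    let σ' : Γ := IntermediateField.fixingSubgroupEquiv M ⟨σ, hσM⟩
    have hσ' : ∀ y : L, σ' y = σ y := fun y => rfl
    have hwa : WA k L := fun ι _ B hB hinj i₀ Y => weak_approx hF B hB hinj i₀ Y
    obtain ⟨θ, hθ, hθ1, hθ2⟩ := exists_theta (M := M) hwa A hAP {1}
    have hθ1' : θ - 1 ∈ A.nonunits := by
      have := hθ1 1 (Finset.mem_singleton_self _)
      rwa [mul_one] at this
    have hθ2' : ∀ τ : Γ, τ • A ≠ A → θ ∈ (τ • A).nonunits := by
      intro τ hτ
      have := hθ2 1 (Finset.mem_singleton_self _) τ hτ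
      rwa [mul_one] at this
    let D : Subgroup Γ := MulAction.stabilizer Γ A
    have hD : ∀ τ τ' : Γ, (QuotientGroup.mk τ : Γ ⧸ D) = QuotientGroup.mk τ' → τ θ = τ' θ := by
      intro τ τ' h
      rw [QuotientGroup.eq] at h
      have h1 := hθ _ (MulAction.mem_stabilizer_iff.1 h)
      have h2 : τ' θ = τ ((τ⁻¹ * τ') θ) := by
        show τ' θ = τ (τ⁻¹ (τ' θ))
        exact (τ.apply_symm_apply (τ' θ)).symm
      rw [h2, h1]
    have : Finite Γ := inferInstance
    have : Fintype (Γ ⧸ D) := Fintype.ofFinite _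
    set e : Γ ⧸ D := QuotientGroup.mk 1 with he
    have he' : e.out θ = θ := hD e.out 1 (QuotientGroup.out_eq' _)
    have hother : ∀ q : Γ ⧸ D, q ≠ e → q.out θ ∈ A.nonunits := by
      intro q hq
      have h1 : (q.out)⁻¹ • A ≠ A := by
        intro h1
        apply hq
        rw [← QuotientGroup.out_eq' q, he, QuotientGroup.eq, mul_one]
        exact MulAction.mem_stabilizer_iff.2 h1
      have h2 := hθ2' _ h1
      rw [mem_nonunits_smul, inv_inv] at h2
      exact h2
    have hnm : ∀ x : L, x ∈ A.nonunits → x ∈ A := fun x hx =>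
      (A.valuation_le_one_iff x).1 ((ValuationSubring.mem_nonunits_iff _).1 hx).le
    have hθA : θ ∈ A := by
      have := A.add_mem (θ - 1) 1 (hnm _ hθ1') A.one_mem
      rwa [sub_add_cancel] at this
    have hall : ∀ q : Γ ⧸ D, q.out θ ∈ A := by
      intro q
      by_cases hq : q = e
      · rw [hq, he']; exact hθA
      · exact hnm _ (hother q hq)
    set P : Polynomial L := ∏ q : Γ ⧸ D, (Polynomial.X - Polynomial.C (q.out θ)) with hP
    set R : Polynomial L := ∏ q ∈ Finset.univ.erase e,
      (Polynomial.X - Polynomial.C (q.out θ)) with hR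
    have hPR : P = (Polynomial.X - Polynomial.C θ) * R := by
      rw [hP, hR, ← Finset.mul_prod_erase Finset.univ _ (Finset.mem_univ e), he']
    have hPm : P.Monic := Polynomial.monic_prod_of_monic _ _ fun q _ => Polynomial.monic_X_sub_C _
    -- polynomials over `A`
    have hcoef : ∀ T : Finset (Γ ⧸ D), ∃ PA : Polynomial A,
        PA.map A.subtype = ∏ q ∈ T, (Polynomial.X - Polynomial.C (q.out θ)) := by
      intro T
      refine ⟨∏ q ∈ T, (Polynomial.X - Polynomial.C ⟨q.out θ, hall q⟩), ?_⟩
      rw [Polynomial.map_prod]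
      refine Finset.prod_congr rfl fun q _ => ?_
      rw [Polynomial.map_sub, Polynomial.map_X, Polynomial.map_C]
      rfl
    have hPA : ∀ n, P.coeff n ∈ A := by
      intro n
      obtain ⟨PA, hPA⟩ := hcoef Finset.univ
      rw [hP, ← hPA, Polynomial.coeff_map]
      exact (PA.coeff n).2
    have hRA : R.derivative.eval 1 ∈ A := by
      obtain ⟨PA, hPA⟩ := hcoef (Finset.univ.erase e)
      rw [hR, ← hPA, Polynomial.derivative_map]
      have h1 : (1 : L) = A.subtype 1 := rfl
      rw [h1, Polynomial.eval_map, Polynomial.eval₂_at_apply]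
      exact (PA.derivative.eval 1).2
    have hR1A : R.eval 1 ∈ A := by
      obtain ⟨PA, hPA⟩ := hcoef (Finset.univ.erase e)
      rw [hR, ← hPA]
      have h1 : (1 : L) = A.subtype 1 := rfl
      rw [h1, Polynomial.eval_map, Polynomial.eval₂_at_apply]
      exact (PA.eval 1).2
    have hone : ∀ x : L, x ∈ A.nonunits → A.valuation (1 - x) = 1 := by
      intro x hx
      rw [ValuationSubring.mem_nonunits_iff] at hx
      rw [sub_eq_add_neg]
      apply A.valuation.map_one_add_of_lt
      rw [Valuation.map_neg]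
      exact hx
    have hR1 : A.valuation (R.eval 1) = 1 := by
      rw [hR, Polynomial.eval_prod, map_prod]
      apply Finset.prod_eq_one
      intro q hq
      rw [Polynomial.eval_sub, Polynomial.eval_X, Polynomial.eval_C]
      exact hone _ (hother q (Finset.ne_of_mem_erase hq))
    have h1θ : 1 - θ ∈ A.nonunits := by
      have h1 : 1 - θ = -(θ - 1) := by ring
      rw [ValuationSubring.mem_nonunits_iff, h1, Valuation.map_neg]
      exact (ValuationSubring.mem_nonunits_iff _).1 hθ1'
    have hP1 : P.eval 1 ∈ A.nonunits := by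
      rw [hPR, Polynomial.eval_mul, Polynomial.eval_sub, Polynomial.eval_X, Polynomial.eval_C,
        mul_comm]
      exact mul_mem_nonunits' hR1A h1θ
    have hP'1 : P.derivative.eval 1 ∉ A.nonunits := by
      intro h
      rw [hPR, Polynomial.derivative_mul, Polynomial.derivative_X_sub_C, one_mul,
        Polynomial.eval_add, Polynomial.eval_mul, Polynomial.eval_sub, Polynomial.eval_X,
        Polynomial.eval_C] at h
      have h1 : (1 - θ) * R.derivative.eval 1 ∈ A.nonunits := by
        rw [mul_comm]
        exact mul_mem_nonunits' hRA h1θ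
      rw [ValuationSubring.mem_nonunits_iff] at h h1
      have h2 : A.valuation (R.eval 1) < 1 := by
        have h3 : R.eval 1 = (R.eval 1 + (1 - θ) * R.derivative.eval 1) -
          (1 - θ) * R.derivative.eval 1 := by ring
        rw [h3]
        exact A.valuation.map_sub_lt h h1
      rw [hR1] at h2
      exact lt_irrefl _ h2
    have hPfix : ∀ τ : Γ, P.map (τ : L →+* L) = P := by
      intro τ
      rw [hP, Polynomial.map_prod]
      apply Fintype.prod_equiv (MulAction.toPerm τ)
      intro q
      rw [Polynomial.map_sub, Polynomial.map_X, Polynomial.map_C]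
      congr 2
      show (τ * q.out) θ = ((MulAction.toPerm τ) q).out θ
      apply hD
      rw [QuotientGroup.out_eq']
      show (QuotientGroup.mk (τ * q.out) : Γ ⧸ D) = τ • q
      conv_rhs => rw [← QuotientGroup.out_eq' q]
      rfl
    have hPM : ∀ n, j (P.coeff n) ∈ Set.range i := by
      intro n
      have h1 : ∀ τ : Γ, τ (P.coeff n) = P.coeff n := by
        intro τ
        conv_rhs => rw [← hPfix τ]
        rw [Polynomial.coeff_map]
        rfl
      obtain ⟨m, hm⟩ := (IsGalois.mem_range_algebraMap_iff_fixed (F := M) (P.coeff n)).2 h1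
      rw [← hm]
      exact (hM _).1 m.2
    have hPg : ∀ n, j (P.coeff n) ∈ Set.range
        (i.comp (algebraMap (PowerSeries k) (LaurentSeries k))) := by
      intro n
      obtain ⟨f, hf⟩ := hPM n
      have h1 : i f ∈ B := by
        rw [hf, ← hAm]
        exact hPA n
      obtain ⟨g, hg⟩ := (hB f).1 h1
      exact ⟨g, by rw [RingHom.comp_apply, hg, hf]⟩
    have hlift : P.map j ∈ Polynomial.lifts
        (i.comp (algebraMap (PowerSeries k) (LaurentSeries k))) := by
      rw [Polynomial.lifts_iff_coeff_lifts]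
      intro n
      rw [Polynomial.coeff_map]
      exact hPg n
    obtain ⟨Q, hQ, -, hQm⟩ := Polynomial.lifts_and_natDegree_eq_and_monic hlift (hPm.map j)
    have hev : ∀ T : Polynomial (PowerSeries k), ∀ U : Polynomial L,
        T.map (i.comp (algebraMap (PowerSeries k) (LaurentSeries k))) = U.map j →
        i (algebraMap (PowerSeries k) (LaurentSeries k) (T.eval 1)) = j (U.eval 1) := by
      intro T U h
      have h1 : (T.map (i.comp (algebraMap (PowerSeries k) (LaurentSeries k)))).eval 1 =
          i (algebraMap (PowerSeries k) (LaurentSeries k) (T.eval 1)) := by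
        rw [← map_one (i.comp (algebraMap (PowerSeries k) (LaurentSeries k))),
          Polynomial.eval_map, Polynomial.eval₂_at_apply]
        rfl
      have h2 : (U.map j).eval 1 = j (U.eval 1) := by
        rw [← map_one j, Polynomial.eval_map, Polynomial.eval₂_at_apply]
      rw [← h1, h, h2]
    have hQ1 : PowerSeries.constantCoeff (Q.eval 1) = 0 := by
      rw [← lg_nonunit_iff i B hB, hev Q P hQ, ← hAn]
      exact hP1
    have hQ'1 : PowerSeries.constantCoeff (Q.derivative.eval 1) ≠ 0 := by
      intro h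
      apply hP'1
      rw [hAn, ← hev Q.derivative P.derivative (by
        rw [← Polynomial.derivative_map, hQ, Polynomial.derivative_map]), lg_nonunit_iff i B hB]
      exact h
    obtain ⟨a, ha, -⟩ := HenselianRing.is_henselian (R := PowerSeries k)
      (I := Ideal.span {PowerSeries.X}) Q hQm 1
      (Ideal.mem_span_singleton.2 (PowerSeries.X_dvd_iff.2 hQ1))
      ((PowerSeries.isUnit_iff_constantCoeff.2 (isUnit_iff_ne_zero.2 hQ'1)).map _)
    have hroot : (P.map j).eval (i (algebraMap (PowerSeries k) (LaurentSeries k) a)) = 0 := by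
      rw [← hQ]
      have h1 : i (algebraMap (PowerSeries k) (LaurentSeries k) a) =
        (i.comp (algebraMap (PowerSeries k) (LaurentSeries k))) a := rfl
      rw [h1, Polynomial.eval_map, Polynomial.eval₂_at_apply, ha, map_zero]
    rw [hP, Polynomial.map_prod, Polynomial.eval_prod, Finset.prod_eq_zero_iff] at hroot
    obtain ⟨q, -, hq⟩ := hroot
    rw [Polynomial.map_sub, Polynomial.map_X, Polynomial.map_C, Polynomial.eval_sub,
      Polynomial.eval_X, Polynomial.eval_C, sub_eq_zero] at hq
    have hqM : q.out θ ∈ M := (hM _).2 ⟨_, hq⟩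
    have hqfix : ∀ τ : Γ, τ (q.out θ) = q.out θ := fun τ => τ.commutes ⟨_, hqM⟩
    have hθfix : ∀ τ : Γ, τ θ = θ := by
      have h1 : θ = q.out θ := by
        have h2 := hqfix (q.out)⁻¹
        have h3 : (q.out)⁻¹ (q.out θ) = θ := q.out.symm_apply_apply θ
        rw [h3] at h2
        exact h2
      intro τ
      rw [h1]
      exact hqfix τ
    have hfin : σ' • A = A := by
      by_contra h
      have h1 := hθ2' σ' h
      rw [mem_nonunits_smul, hθfix] at h1
      have h2 : A.valuation ((1 : L)) < 1 := by
        have h3 : (1 : L) = θ - (θ - 1) := by ring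
        rw [h3]
        exact A.valuation.map_sub_lt ((ValuationSubring.mem_nonunits_iff _).1 h1)
          ((ValuationSubring.mem_nonunits_iff _).1 hθ1')
      rw [map_one] at h2
      exact lt_irrefl _ h2
    ext x
    have h1 : x ∈ σ' • A ↔ x ∈ A := by rw [hfin]
    rw [mem_smul_iff'] at h1 ⊢
    exact h1

end Pool.Agent.Helper54.FP
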